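import Mathlib

/-!
# MP_f18e63_co, Q1: a Mengerian set system without the seven-set minor whose Menger dual is not Menger

The system has nine points, in three paths `0-1-2`, `3-4-5`, `6-7-8`, and ten blocks: the six edges
of the paths and the triples `{2,4,6}`, `{1,4,7}`, `{0,5,7}`, `{1,3,8}`.
-/

set_option autoImplicit false
set_option maxRecDepth 100000

namespace Pool.Agent.Results.MP_f18e63_co.NineSetCounterexample

open Finset

section defs

variable {α : Type*} [DecidableEq α]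

/-- the inclusion-minimal blocks of a set system -/
def minBlocks (F : Finset (Finset α)) : Finset (Finset α) :=
  F.filter fun B => ∀ A ∈ F, A ⊆ B → A = B

/-- the Menger dual: the inclusion-minimal sets of points that meet every minimal block -/
def dual [Fintype α] (F : Finset (Finset α)) : Finset (Finset α) :=
  minBlocks (univ.filter fun C : Finset α => ∀ B ∈ minBlocks F, (B ∩ C).Nonempty)

/-- the Menger property: the largest number of pairwise disjoint minimal blocks equals the least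
cardinality of a block of the Menger dual (by convention also if there is no block or if the empty
set is a block) -/
def MengerProperty [Fintype α] (F : Finset (Finset α)) : Prop :=
  F = ∅ ∨ ∅ ∈ F ∨ ∃ k : ℕ,
    IsGreatest {m : ℕ | ∃ P ⊆ minBlocks F,
      (∀ A ∈ P, ∀ B ∈ P, A ≠ B → Disjoint A B) ∧ P.card = m} k ∧
    IsLeast {m : ℕ | ∃ C ∈ dual F, C.card = m} k

/-- Mengerian set systems -/
def Mengerian [Fintype α] (F : Finset (Finset α)) : Prop :=
  ∅ ∈ F ∨ ∀ c : α → ℕ, ∃ f : Finset α → ℕ,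
    (∀ x, ∑ B ∈ F.filter (fun B => x ∈ B), f B ≤ c x) ∧
    IsLeast {v : ℕ | ∃ C ∈ dual F, v = ∑ x ∈ C, c x} (∑ B ∈ F, f B)

/-- `Minor F G`: `G` is obtained from `F` by a sequence of weak and strong point-restrictions -/
inductive Minor (F : Finset (Finset α)) : Finset (Finset α) → Prop
  | refl : Minor F F
  | weak (G : Finset (Finset α)) (T : Finset α) : Minor F G → Minor F (G.image fun B => B \ T)
  | strong (G : Finset (Finset α)) (T : Finset α) :
      Minor F G → Minor F (G.filter fun B => B ∩ T = ∅)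

/-- the system `Q` (every point of which lies in a block) is, up to renaming its points, the system
of minimal blocks of some minor of `F` -/
def ContainsMinor {β : Type*} (F : Finset (Finset α)) (Q : Finset (Finset β)) : Prop :=
  ∃ G, Minor F G ∧ ∃ e : β ↪ α, minBlocks G = Q.image fun B => B.map e

end defs

/-- the system `(abc, cde, bdf, aef, cf, be, ad)` with `a, b, c, d, e, f = 0, 1, 2, 3, 4, 5` -/
def Q : Finset (Finset (Fin 6)) :=
  {{0, 1, 2}, {2, 3, 4}, {1, 3, 5}, {0, 4, 5}, {2, 5}, {1, 4}, {0, 3}}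

/-- the counterexample -/
def F : Finset (Finset (Fin 9)) :=
  {{0, 1}, {1, 2}, {3, 4}, {4, 5}, {6, 7}, {7, 8}, {2, 4, 6}, {1, 4, 7}, {0, 5, 7}, {1, 3, 8}}

/-! ### general lemmas -/

lemma exists_min {α : Type*} [DecidableEq α] (F : Finset (Finset α)) (A : Finset α) (hA : A ∈ F) :
    ∃ B ∈ minBlocks F, B ⊆ A := by
  induction hn : A.card using Nat.strong_induction_on generalizing A with
  | _ n ih =>
    by_cases h : ∀ B ∈ F, B ⊆ A → B = A
    · exact ⟨A, by simp only [minBlocks, mem_filter]; exact ⟨hA, h⟩, Subset.refl _⟩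
    · push Not at h
      obtain ⟨B, hB, hBA, hne⟩ := h
      have hlt : B.card < n := by
        rw [← hn]
        exact card_lt_card (Finset.ssubset_iff_subset_ne.2 ⟨hBA, hne⟩)
      obtain ⟨C, hC, hCB⟩ := ih B.card hlt B hB rfl
      exact ⟨C, hC, hCB.trans hBA⟩

lemma mem_minBlocks {α : Type*} [DecidableEq α] {F : Finset (Finset α)} {B : Finset α} :
    B ∈ minBlocks F ↔ B ∈ F ∧ ∀ A ∈ F, A ⊆ B → A = B := by
  unfold minBlocks
  rw [mem_filter]

lemma minBlocks_F : minBlocks F = F := by decide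

/-- covers of `F` -/
def Cover (C : Finset (Fin 9)) : Prop := ∀ B ∈ F, (B ∩ C).Nonempty

instance (C : Finset (Fin 9)) : Decidable (Cover C) := by unfold Cover; infer_instance

lemma mem_dual {C : Finset (Fin 9)} :
    C ∈ dual F ↔ Cover C ∧ ∀ A, Cover A → A ⊆ C → A = C := by
  unfold dual
  rw [minBlocks_F]
  simp only [minBlocks, mem_filter, mem_univ, true_and, Cover]

lemma cover_dual {C : Finset (Fin 9)} (hC : Cover C) : ∃ A ∈ dual F, A ⊆ C := by
  have h : C ∈ univ.filter (fun C : Finset (Fin 9) => ∀ B ∈ minBlocks F, (B ∩ C).Nonempty) := by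
    rw [minBlocks_F]
    simp only [mem_filter, mem_univ, true_and]
    exact hC
  exact exists_min _ C h

lemma minBlocks_minBlocks {α : Type*} [DecidableEq α] (F : Finset (Finset α)) :
    minBlocks (minBlocks F) = minBlocks F := by
  ext B
  constructor
  · intro h
    exact (mem_filter.1 h).1
  · intro h
    refine mem_filter.2 ⟨h, fun A hA hAB => ?_⟩
    exact (mem_filter.1 h).2 A (mem_filter.1 hA).1 hAB

/-! ### the dual has no Menger property -/

lemma no_two_covers : ∀ g : Fin 9 → Bool, ¬ ((∀ B ∈ F, ∃ x ∈ B, g x = true) ∧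
    ∀ B ∈ F, ∃ x ∈ B, g x = false) := by
  intro g
  simp only [F, mem_insert, mem_singleton, forall_eq_or_imp, forall_eq, exists_eq_or_imp,
    exists_eq_left]
  cases g 0 <;> cases g 1 <;> cases g 2 <;> cases g 3 <;> cases g 4 <;> cases g 5 <;>
    cases g 6 <;> cases g 7 <;> cases g 8 <;> simp

lemma not_two_covers {A B : Finset (Fin 9)} (hA : Cover A) (hB : Cover B) :
    ¬ Disjoint A B := by
  intro hd
  refine no_two_covers (fun x => decide (x ∈ A)) ⟨?_, ?_⟩
  · intro C hC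
    obtain ⟨x, hx⟩ := hA C hC
    rw [mem_inter] at hx
    exact ⟨x, hx.1, by simpa using hx.2⟩
  · intro C hC
    obtain ⟨x, hx⟩ := hB C hC
    rw [mem_inter] at hx
    refine ⟨x, hx.1, ?_⟩
    have : x ∉ A := fun h => (Finset.disjoint_left.1 hd) h hx.2
    simpa using this

lemma cover_compl (x : Fin 9) : Cover (univ \ {x}) := by
  revert x
  decide

lemma meets_of_mem_dual {α : Type*} [DecidableEq α] [Fintype α] {F : Finset (Finset α)}
    {C : Finset α} (hC : C ∈ dual F) : ∀ B ∈ minBlocks F, (B ∩ C).Nonempty := by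
  unfold dual at hC
  rw [mem_minBlocks, mem_filter] at hC
  exact hC.1.2

lemma not_menger_dual : ¬ MengerProperty (dual F) := by
  rintro (h | h | ⟨k, h1, h2⟩)
  · obtain ⟨A, hA, -⟩ := cover_dual (cover_compl 0)
    rw [h] at hA
    exact absurd hA (Finset.notMem_empty _)
  · have h3 : Cover ∅ := (mem_dual.1 h).1
    exact absurd h3 (by decide)
  · obtain ⟨P, hP, hdis, hcard⟩ := h1.1
    have hk : k ≤ 1 := by
      by_contra hk
      push Not at hk
      rw [← hcard, Finset.one_lt_card] at hk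
      obtain ⟨A, hA, B, hB, hne⟩ := hk
      have hA' : A ∈ dual F := (mem_minBlocks.1 (hP hA)).1
      have hB' : B ∈ dual F := (mem_minBlocks.1 (hP hB)).1
      exact not_two_covers (mem_dual.1 hA').1 (mem_dual.1 hB').1 (hdis A hA B hB hne)
    obtain ⟨C, hC, hCk⟩ := h2.1
    have hC' : ∀ B ∈ minBlocks (dual F), (B ∩ C).Nonempty := meets_of_mem_dual hC
    obtain ⟨x, hx⟩ : ∃ x, C ⊆ {x} := by
      rcases Nat.eq_zero_or_pos C.card with h0 | h0
      · exact ⟨0, by rw [Finset.card_eq_zero.1 h0]; exact Finset.empty_subset _⟩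
      · have h1 : C.card = 1 := by omega
        obtain ⟨x, hx⟩ := Finset.card_eq_one.1 h1
        exact ⟨x, hx.subset⟩
    obtain ⟨A, hA, hAx⟩ := cover_dual (cover_compl x)
    have hAm : A ∈ minBlocks (dual F) := by
      unfold dual
      rw [minBlocks_minBlocks]
      exact hA
    obtain ⟨y, hy⟩ := hC' A hAm
    rw [mem_inter] at hy
    have h3 := hAx hy.1
    have h4 := hx hy.2
    simp only [mem_sdiff, mem_univ, true_and, mem_singleton] at h3 h4
    exact h3 h4

/-! ### `F` does not contain the seven-set minor -/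

lemma minor_form {α : Type*} [DecidableEq α] {F G : Finset (Finset α)} (h : Minor F G) :
    ∃ I J : Finset α, G = (F.filter fun B => B ∩ I = ∅).image fun B => B \ J := by
  induction h with
  | refl =>
    refine ⟨∅, ∅, ?_⟩
    simp
  | weak G T _ ih =>
    obtain ⟨I, J, rfl⟩ := ih
    refine ⟨I, J ∪ T, ?_⟩
    rw [image_image]
    congr 1
    funext B
    simp only [Function.comp]
    ext x
    simp only [mem_sdiff, mem_union]
    tauto
  | strong G T _ ih =>
    obtain ⟨I, J, rfl⟩ := ih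
    refine ⟨I ∪ (T \ J), J, ?_⟩
    ext B
    simp only [mem_filter, mem_image]
    constructor
    · rintro ⟨⟨C, ⟨hC, hCI⟩, rfl⟩, hCT⟩
      refine ⟨C, ⟨hC, ?_⟩, rfl⟩
      rw [Finset.eq_empty_iff_forall_notMem] at hCI hCT ⊢
      intro x hx
      simp only [mem_inter, mem_union, mem_sdiff] at hx hCI hCT
      rcases hx with ⟨h1, h2 | h2⟩
      · exact hCI x ⟨h1, h2⟩
      · exact hCT x ⟨⟨h1, h2.2⟩, h2.1⟩
    · rintro ⟨C, ⟨hC, hCI⟩, rfl⟩
      rw [Finset.eq_empty_iff_forall_notMem] at hCI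
      refine ⟨⟨C, ⟨hC, ?_⟩, rfl⟩, ?_⟩
      · rw [Finset.eq_empty_iff_forall_notMem]
        intro x hx
        refine hCI x ?_
        simp only [mem_inter, mem_union, mem_sdiff] at hx ⊢
        exact ⟨hx.1, Or.inl hx.2⟩
      · rw [Finset.eq_empty_iff_forall_notMem]
        intro x hx
        refine hCI x ?_
        simp only [mem_inter, mem_union, mem_sdiff] at hx ⊢
        exact ⟨hx.1.1, Or.inr ⟨hx.2, hx.1.2⟩⟩

/-- the triples -/
lemma card_triples : (F.filter fun B => B.card = 3).card = 4 := by decide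

lemma card_le_three : ∀ B ∈ F, B.card ≤ 3 := by decide

lemma triples_cover : ∀ x : Fin 9, ∃ B ∈ F.filter (fun B => B.card = 3), x ∈ B := by decide

lemma card_F : F.card = 10 := by decide

lemma card_Q : Q.card = 7 := by decide

lemma card_Q3 : (Q.filter fun B => B.card = 3).card = 4 := by decide

lemma not_containsMinor : ¬ ContainsMinor F Q := by
  rintro ⟨G, hG, e, he⟩
  obtain ⟨I, J, rfl⟩ := minor_form hG
  set G := (F.filter fun B => B ∩ I = ∅).image fun B => B \ J with hGdef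
  -- blocks of size three of the minor are triples of `F` that avoid `I` and `J`
  have key : ∀ B ∈ G, B.card = 3 → B ∈ F ∧ B ∩ I = ∅ ∧ B ∩ J = ∅ := by
    intro B hB h3
    rw [hGdef, mem_image] at hB
    obtain ⟨C, hC, rfl⟩ := hB
    rw [mem_filter] at hC
    have h4 : C \ J = C := by
      apply Finset.eq_of_subset_of_card_le sdiff_subset
      rw [h3]
      exact card_le_three C hC.1
    rw [h4]
    refine ⟨hC.1, hC.2, ?_⟩
    rw [Finset.eq_empty_iff_forall_notMem]
    intro x hx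
    rw [mem_inter] at hx
    rw [← h4] at hx
    exact (mem_sdiff.1 hx.1).2 hx.2
  have hsub : (minBlocks G).filter (fun B => B.card = 3) ⊆ F.filter (fun B => B.card = 3) := by
    intro B hB
    rw [mem_filter] at hB ⊢
    exact ⟨(key B (mem_minBlocks.1 hB.1).1 hB.2).1, hB.2⟩
  have hcard : 4 ≤ ((minBlocks G).filter (fun B => B.card = 3)).card := by
    rw [he]
    have h1 : (Q.filter fun B => B.card = 3).image (fun B => B.map e) ⊆
        (Q.image fun B => B.map e).filter (fun B => B.card = 3) := by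
      intro B hB
      rw [mem_image] at hB
      obtain ⟨C, hC, rfl⟩ := hB
      rw [mem_filter] at hC ⊢
      refine ⟨mem_image_of_mem _ hC.1, ?_⟩
      rw [card_map]
      exact hC.2
    have h2 := card_le_card h1
    rw [card_image_of_injective _ (Finset.map_injective e), card_Q3] at h2
    exact h2
  have heq : (minBlocks G).filter (fun B => B.card = 3) = F.filter (fun B => B.card = 3) := by
    apply Finset.eq_of_subset_of_card_le hsub
    rw [card_triples]
    exact hcard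
  have hI : ∀ x, x ∉ I ∧ x ∉ J := by
    intro x
    obtain ⟨B, hB, hx⟩ := triples_cover x
    have h3 : B.card = 3 := (mem_filter.1 hB).2
    rw [← heq, mem_filter] at hB
    obtain ⟨-, h1, h2⟩ := key B (mem_minBlocks.1 hB.1).1 h3
    rw [Finset.eq_empty_iff_forall_notMem] at h1 h2
    exact ⟨fun h => h1 x (mem_inter.2 ⟨hx, h⟩), fun h => h2 x (mem_inter.2 ⟨hx, h⟩)⟩
  have hI0 : I = ∅ := Finset.eq_empty_iff_forall_notMem.2 fun x => (hI x).1
  have hJ0 : J = ∅ := Finset.eq_empty_iff_forall_notMem.2 fun x => (hI x).2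
  have hGF : G = F := by
    rw [hGdef, hI0, hJ0]
    simp
  have h7 : (minBlocks G).card ≤ 7 := by
    rw [he, ← card_Q]
    exact card_image_le
  rw [hGF, minBlocks_F, card_F] at h7
  omega

/-! ### `F` is Mengerian -/

lemma split (a p r : ℕ) (h : a ≤ p + r) : ∃ u w, u + w = a ∧ u ≤ p ∧ w ≤ r :=
  ⟨min a p, a - min a p, by omega, by omega, by omega⟩

/-- the packing for a cost vector, together with a cover of the same cost -/
lemma key (c0 c1 c2 c3 c4 c5 c6 c7 c8 : ℕ) : ∃ u0 w0 u1 w1 u2 w2 t0 z t1 t2 : ℕ,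
    (u0 + t1 ≤ c0 ∧ u0 + w0 + z + t2 ≤ c1 ∧ w0 + t0 ≤ c2 ∧
     u1 + t2 ≤ c3 ∧ u1 + w1 + t0 + z ≤ c4 ∧ w1 + t1 ≤ c5 ∧
     u2 + t0 ≤ c6 ∧ u2 + w2 + z + t1 ≤ c7 ∧ w2 + t2 ≤ c8) ∧
    (c1 + c4 + c7 ≤ u0 + w0 + u1 + w1 + u2 + w2 + t0 + z + t1 + t2 ∨
     c1 + c3 + c5 + c6 + c8 ≤ u0 + w0 + u1 + w1 + u2 + w2 + t0 + z + t1 + t2 ∨
     c4 + c0 + c2 + c6 + c8 ≤ u0 + w0 + u1 + w1 + u2 + w2 + t0 + z + t1 + t2 ∨
     c7 + c0 + c2 + c3 + c5 ≤ u0 + w0 + u1 + w1 + u2 + w2 + t0 + z + t1 + t2 ∨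
     c3 + c5 + c1 + c7 + c2 ≤ u0 + w0 + u1 + w1 + u2 + w2 + t0 + z + t1 + t2 ∨
     c3 + c5 + c1 + c7 + c6 ≤ u0 + w0 + u1 + w1 + u2 + w2 + t0 + z + t1 + t2 ∨
     c6 + c8 + c4 + c1 + c5 ≤ u0 + w0 + u1 + w1 + u2 + w2 + t0 + z + t1 + t2 ∨
     c6 + c8 + c4 + c1 + c0 ≤ u0 + w0 + u1 + w1 + u2 + w2 + t0 + z + t1 + t2 ∨
     c0 + c2 + c7 + c4 + c8 ≤ u0 + w0 + u1 + w1 + u2 + w2 + t0 + z + t1 + t2 ∨
     c0 + c2 + c7 + c4 + c3 ≤ u0 + w0 + u1 + w1 + u2 + w2 + t0 + z + t1 + t2) := by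
  rcases le_or_gt (c0 + c2) c1 with h0 | h0 <;>
  rcases le_or_gt (c3 + c5) c4 with h1 | h1 <;>
  rcases le_or_gt (c6 + c8) c7 with h2 | h2
  · -- all nonnegative
    refine ⟨c0, c2, c3, c5, c6, c8, 0,
      min (c1 - (c0 + c2)) (min (c4 - (c3 + c5)) (c7 - (c6 + c8))), 0, 0, ?_, ?_⟩ <;> omega
  · obtain ⟨u, w, h3, h4, h5⟩ := split c7 c6 c8 h2.le
    refine ⟨c0, c2, c3, c5, u, w, 0, 0, 0, 0, ?_, ?_⟩ <;> omega
  · obtain ⟨u, w, h3, h4, h5⟩ := split c4 c3 c5 h1.le
    refine ⟨c0, c2, u, w, c6, c8, 0, 0, 0, 0, ?_, ?_⟩ <;> omega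
  · -- only path 0 is nonnegative; the triple is {1, 3, 8}
    obtain ⟨t, ht⟩ : ∃ t, t = min (c1 - (c0 + c2)) (min (c3 + c5 - c4)
      (min (c6 + c8 - c7) (min c8 c3))) := ⟨_, rfl⟩
    obtain ⟨u, w, h3, h4, h5⟩ := split c4 (c3 - t) c5 (by omega)
    obtain ⟨u', w', h3', h4', h5'⟩ := split c7 c6 (c8 - t) (by omega)
    refine ⟨c0, c2, u, w, u', w', 0, 0, 0, t, ?_, ?_⟩ <;> omega
  · obtain ⟨u, w, h3, h4, h5⟩ := split c1 c0 c2 h0.le
    refine ⟨u, w, c3, c5, c6, c8, 0, 0, 0, 0, ?_, ?_⟩ <;> omega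
  · -- only path 1 is nonnegative; the triple is {2, 4, 6}
    obtain ⟨t, ht⟩ : ∃ t, t = min (c4 - (c3 + c5)) (min (c0 + c2 - c1)
      (min (c6 + c8 - c7) (min c2 c6))) := ⟨_, rfl⟩
    obtain ⟨u, w, h3, h4, h5⟩ := split c1 c0 (c2 - t) (by omega)
    obtain ⟨u', w', h3', h4', h5'⟩ := split c7 (c6 - t) c8 (by omega)
    refine ⟨u, w, c3, c5, u', w', t, 0, 0, 0, ?_, ?_⟩ <;> omega
  · -- only path 2 is nonnegative; the triple is {0, 5, 7}
    obtain ⟨t, ht⟩ : ∃ t, t = min (c7 - (c6 + c8)) (min (c0 + c2 - c1)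
      (min (c3 + c5 - c4) (min c0 c5))) := ⟨_, rfl⟩
    obtain ⟨u, w, h3, h4, h5⟩ := split c1 (c0 - t) c2 (by omega)
    obtain ⟨u', w', h3', h4', h5'⟩ := split c4 c3 (c5 - t) (by omega)
    refine ⟨u, w, u', w', c6, c8, 0, 0, t, 0, ?_, ?_⟩ <;> omega
  · obtain ⟨u, w, h3, h4, h5⟩ := split c1 c0 c2 h0.le
    obtain ⟨u', w', h3', h4', h5'⟩ := split c4 c3 c5 h1.le
    obtain ⟨u'', w'', h3'', h4'', h5''⟩ := split c7 c6 c8 h2.le
    refine ⟨u, w, u', w', u'', w'', 0, 0, 0, 0, ?_, ?_⟩ <;> omega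

/-- the blocks, listed -/
def bl : Fin 10 → Finset (Fin 9) :=
  ![{0, 1}, {1, 2}, {3, 4}, {4, 5}, {6, 7}, {7, 8}, {2, 4, 6}, {1, 4, 7}, {0, 5, 7}, {1, 3, 8}]

lemma bl_mem : ∀ i, bl i ∈ F := by decide

/-- a function on blocks from a function on indices -/
def ofIdx (v : Fin 10 → ℕ) (B : Finset (Fin 9)) : ℕ := ∑ i, if bl i = B then v i else 0

lemma sum_ofIdx (v : Fin 10 → ℕ) (p : Finset (Fin 9) → Prop) [DecidablePred p] :
    ∑ B ∈ F.filter p, ofIdx v B = ∑ i, if p (bl i) then v i else 0 := by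
  unfold ofIdx
  rw [sum_comm]
  refine sum_congr rfl fun i _ => ?_
  rw [Finset.sum_ite_eq]
  simp only [mem_filter, bl_mem, true_and]

lemma sum_ofIdx_all (v : Fin 10 → ℕ) : ∑ B ∈ F, ofIdx v B = ∑ i, v i := by
  have h := sum_ofIdx v (fun _ => True)
  simpa using h

lemma weak_duality (c : Fin 9 → ℕ) (f : Finset (Fin 9) → ℕ)
    (hf : ∀ x, ∑ B ∈ F.filter (fun B => x ∈ B), f B ≤ c x) (C : Finset (Fin 9)) (hC : Cover C) :
    ∑ B ∈ F, f B ≤ ∑ x ∈ C, c x := by
  calc ∑ B ∈ F, f B ≤ ∑ B ∈ F, ∑ x ∈ C, if x ∈ B then f B else 0 := by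
        refine sum_le_sum fun B hB => ?_
        obtain ⟨x, hx⟩ := hC B hB
        rw [mem_inter] at hx
        have h1 : (if x ∈ B then f B else 0) ≤ ∑ x ∈ C, if x ∈ B then f B else 0 :=
          Finset.single_le_sum (f := fun x => if x ∈ B then f B else 0)
            (fun _ _ => Nat.zero_le _) hx.2
        rwa [if_pos hx.1] at h1
    _ = ∑ x ∈ C, ∑ B ∈ F, if x ∈ B then f B else 0 := sum_comm
    _ = ∑ x ∈ C, ∑ B ∈ F.filter (fun B => x ∈ B), f B := by
        refine sum_congr rfl fun x _ => ?_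
        rw [sum_filter]
    _ ≤ ∑ x ∈ C, c x := sum_le_sum fun x _ => hf x

lemma pack_exists (c : Fin 9 → ℕ) : ∃ f : Finset (Fin 9) → ℕ,
    (∀ x, ∑ B ∈ F.filter (fun B => x ∈ B), f B ≤ c x) ∧
    ∃ C, Cover C ∧ ∑ x ∈ C, c x ≤ ∑ B ∈ F, f B := by
  obtain ⟨u0, w0, u1, w1, u2, w2, t0, z, t1, t2, ⟨h0, h1, h2, h3, h4, h5, h6, h7, h8⟩, h⟩ :=
    key (c 0) (c 1) (c 2) (c 3) (c 4) (c 5) (c 6) (c 7) (c 8)
  refine ⟨ofIdx ![u0, w0, u1, w1, u2, w2, t0, z, t1, t2], ?_, ?_⟩
  · intro x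
    rw [sum_ofIdx]
    fin_cases x <;> simp [Fin.sum_univ_succ, bl] <;> omega
  · rw [sum_ofIdx_all]
    have hs : ∑ i, (![u0, w0, u1, w1, u2, w2, t0, z, t1, t2] : Fin 10 → ℕ) i =
        u0 + w0 + u1 + w1 + u2 + w2 + t0 + z + t1 + t2 := by
      simp [Fin.sum_univ_succ]
      ring
    rw [hs]
    rcases h with h | h | h | h | h | h | h | h | h | h
    · exact ⟨{1, 4, 7}, by decide, by simpa [add_assoc] using h⟩
    · exact ⟨{1, 3, 5, 6, 8}, by decide, by simpa [add_assoc] using h⟩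
    · exact ⟨{4, 0, 2, 6, 8}, by decide, by simpa [add_assoc] using h⟩
    · exact ⟨{7, 0, 2, 3, 5}, by decide, by simpa [add_assoc] using h⟩
    · exact ⟨{3, 5, 1, 7, 2}, by decide, by simpa [add_assoc] using h⟩
    · exact ⟨{3, 5, 1, 7, 6}, by decide, by simpa [add_assoc] using h⟩
    · exact ⟨{6, 8, 4, 1, 5}, by decide, by simpa [add_assoc] using h⟩
    · exact ⟨{6, 8, 4, 1, 0}, by decide, by simpa [add_assoc] using h⟩
    · exact ⟨{0, 2, 7, 4, 8}, by decide, by simpa [add_assoc] using h⟩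
    · exact ⟨{0, 2, 7, 4, 3}, by decide, by simpa [add_assoc] using h⟩

lemma mengerian_F : Mengerian F := by
  refine Or.inr fun c => ?_
  obtain ⟨f, hf, C, hC, hle⟩ := pack_exists c
  refine ⟨f, hf, ?_, ?_⟩
  · obtain ⟨A, hA, hAC⟩ := cover_dual hC
    refine ⟨A, hA, le_antisymm (weak_duality c f hf A (mem_dual.1 hA).1) ?_⟩
    exact (sum_le_sum_of_subset hAC).trans hle
  · rintro v ⟨A, hA, rfl⟩
    exact weak_duality c f hf A (mem_dual.1 hA).1

/-- MP_f18e63_co, Q1: there is a Mengerian set system that does not contain the seven-set system `Q`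
as a minor and whose Menger dual does not have the Menger property. -/
theorem result : ∃ F : Finset (Finset (Fin 9)),
    Mengerian F ∧ ¬ ContainsMinor F Q ∧ ¬ MengerProperty (dual F) :=
  ⟨F, mengerian_F, not_containsMinor, not_menger_dual⟩

end Pool.Agent.Results.MP_f18e63_co.NineSetCounterexample
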